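import Pool.Agent.NTW.StmtsB

/-!
Squad NTW (MP_e54c4c_gt), row CNT: counting of the classes of an involution.
-/

set_option autoImplicit false

namespace Pool.Agent.NTW.H94

open Pool.Agent.NTW

theorem cnt : CntStmt := by
  intro K τ f k hτ hk hf hcl
  classical
  let P : Finset (Fin K) := Finset.univ.filter fun i => τ i ≠ i
  let A : Finset (Fin K) := P.erase k
  have memP : ∀ i, i ∈ P ↔ τ i ≠ i := fun i => by simp [P]
  have memA : ∀ i, i ∈ A ↔ i ≠ k ∧ τ i ≠ i := fun i => by simp [A, P]
  have hkP : k ∈ P := (memP k).2 hk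
  have hcard : A.card + 1 = P.card := Finset.card_erase_add_one hkP
  have τinj : ∀ x y, τ x = τ y → x = y := fun x y h => by rw [← hτ x, h, hτ y]
  let g : Fin K → Fin K := fun a => min (f a) (τ (f a))
  let h : Fin K → Fin K := fun a => if a < τ a then g a else τ (g a)
  have hg : ∀ a, g a = f a ∨ g a = τ (f a) := fun a => min_choice _ _
  have hh : ∀ a, h a = f a ∨ h a = τ (f a) := by
    intro a
    by_cases hlt : a < τ a
    · have : h a = g a := if_pos hlt
      rw [this]
      exact hg a
    · have : h a = τ (g a) := if_neg hlt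
      rw [this]
      rcases hg a with h1 | h1
      · right
        rw [h1]
      · left
        rw [h1, hτ]
  have hne : ∀ a, a ≠ k → τ a ≠ a → τ (h a) ≠ h a := by
    intro a ha1 ha2
    have := hf a ha1 ha2
    rcases hh a with h1 | h1
    · rw [h1]
      exact this
    · rw [h1, hτ]
      exact fun e => this e.symm
  have hmaps : ∀ a ∈ A, h a ∈ P := by
    intro a ha
    rw [memP]
    exact hne a ((memA a).1 ha).1 ((memA a).1 ha).2
  -- equality of classes
  have hclass : ∀ a b, (h b = h a ∨ h b = τ (h a)) → (f b = f a ∨ f b = τ (f a)) := by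
    intro a b hab
    rcases hab with e | e <;> rcases hh a with e1 | e1 <;> rcases hh b with e2 | e2 <;>
      rw [e1, e2] at e
    · exact Or.inl e
    · right
      rw [← e, hτ]
    · exact Or.inr e
    · left
      exact τinj _ _ e
    · exact Or.inr e
    · left
      exact τinj _ _ e
    · left
      rw [e, hτ]
    · right
      apply τinj
      rw [e]
  have hgclass : ∀ a b, (f b = f a ∨ f b = τ (f a)) → g b = g a := by
    intro a b hab
    show min (f b) (τ (f b)) = min (f a) (τ (f a))
    rcases hab with e | e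
    · rw [e]
    · rw [e, hτ, min_comm]
  have hinj : ∀ a ∈ A, ∀ b ∈ A, h a = h b → a = b := by
    intro a ha b hb e
    by_contra hab
    obtain ⟨ha1, ha2⟩ := (memA a).1 ha
    obtain ⟨hb1, hb2⟩ := (memA b).1 hb
    have hc := hclass a b (Or.inl e.symm)
    have hbt := hcl a b ha1 hb1 ha2 hb2 hab hc
    have hgg := hgclass a b hc
    have hτb : τ b = a := by rw [hbt, hτ]
    have hgne : τ (g a) ≠ g a := by
      have := hf a ha1 ha2
      rcases hg a with h1 | h1
      · rw [h1]
        exact this
      · rw [h1, hτ]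
        exact fun e => this e.symm
    rcases lt_or_ge a (τ a) with hlt | hge
    · have h1 : h a = g a := if_pos hlt
      have h2 : h b = τ (g b) := if_neg (by rw [hτb, hbt]; exact not_lt.2 hlt.le)
      rw [h1, h2, hgg] at e
      exact hgne e.symm
    · have hlt : τ a < a := lt_of_le_of_ne hge ha2
      have h1 : h a = τ (g a) := if_neg (not_lt.2 hge)
      have h2 : h b = g b := if_pos (by rw [hτb, hbt]; exact hlt)
      rw [h1, h2, hgg] at e
      exact hgne e
  have key : ∀ u ∈ P, ∀ w ∈ P, u ≠ w → (∀ a ∈ A, h a ≠ u) → (∀ a ∈ A, h a ≠ w) → False := by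
    intro u hu w hw huw h1 h2
    have hsub : A.image h ⊆ (P.erase u).erase w := by
      intro x hx
      obtain ⟨a, ha, rfl⟩ := Finset.mem_image.1 hx
      exact Finset.mem_erase.2 ⟨h2 a ha, Finset.mem_erase.2 ⟨h1 a ha, hmaps a ha⟩⟩
    have hc := Finset.card_le_card hsub
    rw [Finset.card_image_of_injOn (fun a ha b hb e => hinj a ha b hb e)] at hc
    have hc1 : ((P.erase u).erase w).card + 1 = (P.erase u).card :=
      Finset.card_erase_add_one (Finset.mem_erase.2 ⟨fun e => huw e.symm, hw⟩)
    have hc2 : (P.erase u).card + 1 = P.card := Finset.card_erase_add_one hu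
    omega
  have hτP : ∀ u ∈ P, τ u ∈ P := by
    intro u hu
    rw [memP] at hu ⊢
    rw [hτ]
    exact fun e => hu e.symm
  refine ⟨?_, ?_⟩
  · intro a ha1 ha2 ha3
    by_contra hno
    have hτa1 : τ a ≠ k := fun e => ha2 (by rw [← e, hτ])
    have hτa3 : τ (τ a) ≠ τ a := by
      rw [hτ]
      exact fun e => ha3 e.symm
    have hA : a ∈ A := (memA a).2 ⟨ha1, ha3⟩
    have hτA : τ a ∈ A := (memA _).2 ⟨hτa1, hτa3⟩
    refine key (τ (h a)) (hτP _ (hmaps a hA)) (τ (h (τ a))) (hτP _ (hmaps _ hτA)) ?_ ?_ ?_
    · intro e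
      exact ha3 (hinj _ hA _ hτA (τinj _ _ e)).symm
    · intro b hb e
      obtain ⟨hb1, hb2⟩ := (memA b).1 hb
      have hc := hclass a b (Or.inr e)
      by_cases hab : a = b
      · rw [← hab] at e
        exact hne a ha1 ha3 e.symm
      · have hbt := hcl a b ha1 hb1 ha3 hb2 hab hc
        rw [hbt] at hc
        exact hno hc
    · intro b hb e
      obtain ⟨hb1, hb2⟩ := (memA b).1 hb
      have hc := hclass (τ a) b (Or.inr e)
      by_cases hab : τ a = b
      · rw [← hab] at e
        exact hne _ hτa1 hτa3 e.symm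
      · have hbt := hcl (τ a) b hτa1 hb1 hτa3 hb2 hab hc
        rw [hτ] at hbt
        rw [hbt] at hc
        apply hno
        rcases hc with e1 | e1
        · exact Or.inl e1.symm
        · right
          rw [e1, hτ]
  · intro j hj
    by_contra hno
    have hjP : j ∈ P := (memP j).2 hj
    have hno' : ∀ a ∈ A, f a ≠ j ∧ f a ≠ τ j := by
      intro a ha
      obtain ⟨ha1, ha2⟩ := (memA a).1 ha
      refine ⟨fun e => hno ⟨a, ha1, ha2, Or.inl e⟩, fun e => hno ⟨a, ha1, ha2, Or.inr e⟩⟩
    refine key j hjP (τ j) (hτP j hjP) (fun e => hj e.symm) ?_ ?_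
    · intro a ha e
      rcases hh a with e1 | e1
      · exact (hno' a ha).1 (e1.symm.trans e)
      · refine (hno' a ha).2 ?_
        rw [← e, e1, hτ]
    · intro a ha e
      rcases hh a with e1 | e1
      · exact (hno' a ha).2 (e1.symm.trans e)
      · exact (hno' a ha).1 (τinj _ _ (e1.symm.trans e))

end Pool.Agent.NTW.H94
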